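import Pool.Agent.H.MP_8e1749_lc.B

namespace Pool.Agent.Results.MP_8e1749_lc.Modular

open Pool.Agent.H.MP_8e1749_lc

theorem result :
    (∀ (L₁ L₂ : FirstOrder.Language.{0, 0}) (R₁ : Set (L₁.Term ℕ × L₁.Term ℕ))
      (R₂ : Set (L₂.Term ℕ × L₂.Term ℕ)), Countable (Σ n, L₁.Functions n) →
      Countable (Σ n, L₂.Functions n) → TotTerm R₁ → TotTerm R₂ → TotTerm (union R₁ R₂)) ∧
    ∃ (L₁ L₂ : FirstOrder.Language.{0, 0}) (R₁ : Set (L₁.Term ℕ × L₁.Term ℕ))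
      (R₂ : Set (L₂.Term ℕ × L₂.Term ℕ)), IsTRS R₁ ∧ IsTRS R₂ ∧ TotTerm R₁ ∧ TotTerm R₂ ∧
      ¬ TotTerm (union R₁ R₂) :=
  ⟨fun _ _ R₁ R₂ _ _ h₁ h₂ => modular R₁ R₂ h₁ h₂, L1, L2, R1, R2, trs1, trs2, tot1, tot2, not_tot3⟩

end Pool.Agent.Results.MP_8e1749_lc.Modular
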